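import Mathlib
import Pool.Agent.LeoD.FieldStmts

/-!
# FNB: basic facts on `Fund` (squad LEOD, fields part)
-/

set_option autoImplicit false

open NumberField IsDedekindDomain
open Pool.Agent.LeoD

namespace Pool.Agent.LeoD.H29

variable {k : Type} [Field k] [NumberField k]

set_option linter.unusedSectionVars false

theorem exists_hos (D : Ideal (𝓞 k)) (hD : D ≠ ⊤) :
    ∃ p : HeightOneSpectrum (𝓞 k), D ≤ p.asIdeal := by
  obtain ⟨P, hP, hle⟩ := Ideal.exists_le_maximal D hD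
  exact ⟨⟨P, hP.isPrime, Ring.ne_bot_of_isMaximal_of_not_isField hP
    (RingOfIntegers.not_isField k)⟩, hle⟩

theorem sup_eq_top_of (X Y : Ideal (𝓞 k))
    (h : ∀ p : HeightOneSpectrum (𝓞 k), X ≤ p.asIdeal → ¬ Y ≤ p.asIdeal) : X ⊔ Y = ⊤ := by
  by_contra hne
  obtain ⟨p, hp⟩ := exists_hos (X ⊔ Y) hne
  exact h p (le_trans le_sup_left hp) (le_trans le_sup_right hp)

theorem sqM_mono {I J : Ideal (𝓞 k)} {m : 𝓞 k} (h : SqM I m) (hIJ : I ≤ J) : SqM J m := by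
  obtain ⟨q, hq, hq2⟩ := h
  exact ⟨q, hIJ hq, Ideal.mul_mono_right (Ideal.pow_right_mono hIJ 2) hq2⟩

theorem sqM_scale {J J' : Ideal (𝓞 k)} {m t : 𝓞 k} (h : SqM J m)
    (ht : Ideal.span {t} * J ≤ J') : SqM J' (t ^ 2 * m) := by
  obtain ⟨q, hq, hq2⟩ := h
  refine ⟨t * q, ht (Ideal.mul_mem_mul (Ideal.mem_span_singleton_self t) hq), ?_⟩
  have h1 : (t * q) ^ 2 + t ^ 2 * m = t ^ 2 * (q ^ 2 + m) := by ring
  rw [h1]
  have h2 : t ^ 2 * (q ^ 2 + m) ∈ Ideal.span {t} ^ 2 * (Ideal.span {(4 : 𝓞 k)} * J ^ 2) :=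
    Ideal.mul_mem_mul (Ideal.pow_mem_pow (Ideal.mem_span_singleton_self t) 2) hq2
  have h3 : Ideal.span {t} ^ 2 * (Ideal.span {(4 : 𝓞 k)} * J ^ 2)
      = Ideal.span {(4 : 𝓞 k)} * (Ideal.span {t} * J) ^ 2 := by ring
  rw [h3] at h2
  exact Ideal.mul_mono_right (Ideal.pow_right_mono ht 2) h2

theorem sqM_scale_iff {I : Ideal (𝓞 k)} {m a : 𝓞 k} (ha : a ≠ 0) :
    SqM (Ideal.span {a} * I) (a ^ 2 * m) ↔ SqM I m := by
  constructor
  · rintro ⟨q, hq, hq2⟩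
    obtain ⟨q', hq', rfl⟩ := Ideal.mem_span_singleton_mul.mp hq
    refine ⟨q', hq', ?_⟩
    have h3 : Ideal.span {(4 : 𝓞 k)} * (Ideal.span {a} * I) ^ 2
        = Ideal.span {a ^ 2} * (Ideal.span {(4 : 𝓞 k)} * I ^ 2) := by
      rw [← Ideal.span_singleton_pow]; ring
    rw [h3] at hq2
    obtain ⟨z, hz, hz2⟩ := Ideal.mem_span_singleton_mul.mp hq2
    have h4 : a ^ 2 * z = a ^ 2 * (q' ^ 2 + m) := by rw [hz2]; ring
    rw [← mul_left_cancel₀ (pow_ne_zero 2 ha) h4]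
    exact hz
  · intro h
    exact sqM_scale h le_rfl

theorem fund_iff (I : Ideal (𝓞 k)) (m : 𝓞 k) :
    Fund I m ↔ SqM I m ∧ ∀ p : HeightOneSpectrum (𝓞 k), ¬ SqM (I * p.asIdeal) m :=
  ⟨fun h => ⟨h.sq, h.loc⟩, fun h => ⟨h.1, h.2⟩⟩

/-- Away from `p` the condition for `I p` follows from the one for `I`. -/
theorem sqM_away {I : Ideal (𝓞 k)} {m : 𝓞 k} (h : SqM I m) (p l : HeightOneSpectrum (𝓞 k))
    (hl : l ≠ p) : ∃ t : 𝓞 k, t ∉ l.asIdeal ∧ SqM (I * p.asIdeal) (t ^ 2 * m) := by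
  have hnle : ¬ p.asIdeal ≤ l.asIdeal := by
    intro hle
    have := (p.isMaximal).eq_of_le l.isPrime.ne_top hle
    exact hl (HeightOneSpectrum.ext this.symm)
  obtain ⟨t, ht, htl⟩ := SetLike.not_le_iff_exists.mp hnle
  refine ⟨t, htl, sqM_scale h ?_⟩
  rw [mul_comm]
  exact Ideal.mul_mono_right ((Ideal.span_singleton_le_iff_mem _).mpr ht)

theorem mem_sq {I : Ideal (𝓞 k)} {m : 𝓞 k} (h : SqM I m) : m ∈ I ^ 2 := by
  obtain ⟨q, hq, hq2⟩ := h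
  have h1 : q ^ 2 + m ∈ I ^ 2 := Ideal.mul_le_right hq2
  have h2 : q ^ 2 ∈ I ^ 2 := Ideal.pow_mem_pow hq 2
  have h3 : m = (q ^ 2 + m) - q ^ 2 := by ring
  rw [h3]
  exact Ideal.sub_mem _ h1 h2

/-- An odd prime: `m ∈ (I p)²` is enough. -/
theorem sqM_odd (lcg : LcgStmt) {I : Ideal (𝓞 k)} {m : 𝓞 k} (hI : I ≠ ⊥) (h : SqM I m)
    (p : HeightOneSpectrum (𝓞 k)) (h2 : (2 : 𝓞 k) ∉ p.asIdeal) (hm : m ∈ (I * p.asIdeal) ^ 2) :
    SqM (I * p.asIdeal) m := by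
  refine lcg k (I * p.asIdeal) m (mul_ne_zero hI p.ne_bot) ?_
  intro l
  by_cases hl : l = p
  · subst hl
    refine ⟨2, h2, 0, Ideal.zero_mem _, ?_⟩
    have h3 : (0 : 𝓞 k) ^ 2 + 2 ^ 2 * m = 4 * m := by ring
    rw [h3]
    exact Ideal.mul_mem_mul (Ideal.mem_span_singleton_self _) hm
  · exact sqM_away h p l hl

theorem sqM_zero (J : Ideal (𝓞 k)) : SqM J 0 :=
  ⟨0, Ideal.zero_mem _, by simp⟩

theorem fund_ne_zero {I : Ideal (𝓞 k)} {m : 𝓞 k} (h : Fund I m) : m ≠ 0 := by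
  rintro rfl
  obtain ⟨p, -⟩ := exists_hos (k := k) ⊥ (by
    intro hb
    exact bot_ne_top hb)
  exact h.loc p (sqM_zero _)

theorem fund_ne_bot {I : Ideal (𝓞 k)} {m : 𝓞 k} (h : Fund I m) : I ≠ ⊥ := by
  rintro rfl
  have h1 : m ∈ (⊥ : Ideal (𝓞 k)) ^ 2 := mem_sq h.sq
  have h2 : m = 0 := by
    have : (⊥ : Ideal (𝓞 k)) ^ 2 ≤ ⊥ := Ideal.pow_le_self (by norm_num)
    simpa using this h1
  exact fund_ne_zero h h2

theorem sqM_inf (lcg : LcgStmt) {I J : Ideal (𝓞 k)} {m : 𝓞 k} (hI : I ≠ ⊥) (hJ : J ≠ ⊥)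
    (h1 : SqM I m) (h2 : SqM J m) : SqM (I ⊓ J) m := by
  have hIJ : I ⊓ J ≠ ⊥ := by
    intro hb
    have : I * J ≤ ⊥ := hb ▸ Ideal.mul_le_inf
    exact mul_ne_zero hI hJ (le_bot_iff.mp this)
  have hD : I ⊔ J ≠ ⊥ := by
    intro hb
    exact hI (le_bot_iff.mp (hb ▸ le_sup_left))
  obtain ⟨I', hI'⟩ := Ideal.dvd_iff_le.mpr (le_sup_left : I ≤ I ⊔ J)
  obtain ⟨J', hJ'⟩ := Ideal.dvd_iff_le.mpr (le_sup_right : J ≤ I ⊔ J)
  have hsup : I' ⊔ J' = ⊤ := by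
    have h3 : (I ⊔ J) * (I' ⊔ J') = (I ⊔ J) * ⊤ := by
      rw [Ideal.mul_sup, ← hI', ← hJ', Ideal.mul_top]
    exact mul_left_cancel₀ hD h3
  refine lcg k _ m hIJ ?_
  intro p
  by_cases hp : I' ≤ p.asIdeal
  · have hp2 : ¬ J' ≤ p.asIdeal := by
      intro hc
      exact p.isPrime.ne_top (top_le_iff.mp (hsup ▸ sup_le hp hc))
    obtain ⟨t, ht, htp⟩ := SetLike.not_le_iff_exists.mp hp2
    refine ⟨t, htp, sqM_scale h1 ?_⟩
    refine le_inf Ideal.mul_le_right ?_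
    calc Ideal.span {t} * I ≤ J' * I := Ideal.mul_mono_left
          ((Ideal.span_singleton_le_iff_mem _).mpr ht)
      _ = J' * ((I ⊔ J) * I') := by rw [← hI']
      _ = ((I ⊔ J) * J') * I' := by ring
      _ = J * I' := by rw [← hJ']
      _ ≤ J := Ideal.mul_le_left
  · obtain ⟨t, ht, htp⟩ := SetLike.not_le_iff_exists.mp hp
    refine ⟨t, htp, sqM_scale h2 ?_⟩
    refine le_inf ?_ Ideal.mul_le_right
    calc Ideal.span {t} * J ≤ I' * J := Ideal.mul_mono_left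
          ((Ideal.span_singleton_le_iff_mem _).mpr ht)
      _ = I' * ((I ⊔ J) * J') := by rw [← hJ']
      _ = ((I ⊔ J) * I') * J' := by ring
      _ = I * J' := by rw [← hI']
      _ ≤ I := Ideal.mul_le_left

theorem fund_le (lcg : LcgStmt) {A C : Ideal (𝓞 k)} {M : 𝓞 k} (hA : Fund A M) (hC0 : C ≠ ⊥)
    (hC : SqM C M) : A ≤ C := by
  have hA0 := fund_ne_bot hA
  have h1 := sqM_inf lcg hA0 hC0 hA.sq hC
  obtain ⟨D, hD⟩ := Ideal.dvd_iff_le.mpr (inf_le_left : A ⊓ C ≤ A)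
  by_cases hDt : D = ⊤
  · rw [hDt, Ideal.mul_top] at hD
    exact inf_eq_left.mp hD
  · obtain ⟨p, hp⟩ := exists_hos D hDt
    exfalso
    refine hA.loc p (sqM_mono h1 ?_)
    rw [hD]
    exact Ideal.mul_mono_right hp

theorem fund_scale {I J : Ideal (𝓞 k)} {m m' a b : 𝓞 k} (ha : a ≠ 0) (hb : b ≠ 0)
    (hIJ : Ideal.span {a} * I = Ideal.span {b} * J) (hm : b ^ 2 * m' = a ^ 2 * m)
    (h : Fund I m) : Fund J m' := by
  refine (fund_iff J m').mpr ⟨?_, ?_⟩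
  · have h1 : SqM I m := h.sq
    rw [← sqM_scale_iff ha, hIJ, ← hm, sqM_scale_iff hb] at h1
    exact h1
  · intro p hp
    refine h.loc p ?_
    rw [← sqM_scale_iff hb, hm, ← mul_assoc, ← hIJ, mul_assoc, sqM_scale_iff ha] at hp
    exact hp

theorem fund_exists (a : k) (ha : a ≠ 0) : ∃ (I : Ideal (𝓞 k)) (m : 𝓞 k) (t : k), t ≠ 0 ∧
    (m : k) = t ^ 2 * a ∧ Fund I m := by
  obtain ⟨a1, a2, ha2, haa⟩ := IsFractionRing.div_surjective (A := 𝓞 k) a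
  have ha2' : (a2 : 𝓞 k) ≠ 0 := nonZeroDivisors.ne_zero ha2
  have ha2k : algebraMap (𝓞 k) k a2 ≠ 0 := by
    simpa using ha2'
  have ha1 : a1 ≠ 0 := by
    rintro rfl
    rw [map_zero, zero_div] at haa
    exact ha haa.symm
  set M : 𝓞 k := 4 * (a1 * a2) with hM
  have hM0 : M ≠ 0 := mul_ne_zero (by norm_num) (mul_ne_zero ha1 ha2')
  have htop : SqM ⊤ M := by
    refine ⟨0, Submodule.mem_top, ?_⟩
    have h3 : (0 : 𝓞 k) ^ 2 + M = 4 * (a1 * a2) := by rw [hM]; ring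
    rw [h3]
    refine Ideal.mul_mem_mul (Ideal.mem_span_singleton_self _) ?_
    rw [Ideal.top_pow]
    exact Submodule.mem_top
  set S : Set ℕ := {n | ∃ I : Ideal (𝓞 k), SqM I M ∧ Ideal.absNorm I = n} with hS
  have hne : S.Nonempty := ⟨_, ⊤, htop, rfl⟩
  have hbd : BddAbove S := by
    refine ⟨Ideal.absNorm (Ideal.span {M}), ?_⟩
    rintro n ⟨I, hI, rfl⟩
    have h1 : I ∣ Ideal.span {M} := by
      rw [Ideal.dvd_span_singleton]
      exact Ideal.pow_le_self (by norm_num) (mem_sq hI)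
    refine Nat.le_of_dvd (Nat.pos_of_ne_zero ?_) (map_dvd Ideal.absNorm h1)
    rw [Ne, Ideal.absNorm_eq_zero_iff, Ideal.span_singleton_eq_bot]
    exact hM0
  obtain ⟨I, hI, hIn⟩ := Nat.sSup_mem hne hbd
  refine ⟨I, M, 2 * algebraMap (𝓞 k) k a2, mul_ne_zero two_ne_zero ha2k, ?_, ?_⟩
  · have h4 : (M : k) = 4 * (algebraMap (𝓞 k) k a1 * algebraMap (𝓞 k) k a2) := by
      rw [hM]
      push_cast
      rfl
    rw [h4, ← haa]
    field_simp
    ring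
  · refine (fund_iff I M).mpr ⟨hI, ?_⟩
    intro p hp
    have h5 : Ideal.absNorm (I * p.asIdeal) ≤ sSup S := le_csSup hbd ⟨_, hp, rfl⟩
    rw [← hIn, map_mul] at h5
    have hI0 : I ≠ ⊥ := by
      rintro rfl
      have h6 : M ∈ (⊥ : Ideal (𝓞 k)) ^ 2 := mem_sq hI
      have : (⊥ : Ideal (𝓞 k)) ^ 2 ≤ ⊥ := Ideal.pow_le_self (by norm_num)
      exact hM0 (by simpa using this h6)
    have h7 : 0 < Ideal.absNorm I := by
      refine Nat.pos_of_ne_zero ?_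
      rw [Ne, Ideal.absNorm_eq_zero_iff]
      exact hI0
    have h8 : Ideal.absNorm p.asIdeal ≠ 0 := by
      rw [Ne, Ideal.absNorm_eq_zero_iff]
      exact p.ne_bot
    have h9 : Ideal.absNorm p.asIdeal ≠ 1 := by
      rw [Ne, Ideal.absNorm_eq_one_iff]
      exact p.isPrime.ne_top
    have h10 : 2 ≤ Ideal.absNorm p.asIdeal := by omega
    nlinarith

theorem fnb (lcg : LcgStmt) : FnbStmt := by
  intro k _ _
  refine ⟨fund_iff, ?_, fun I J m => sqM_mono, fun I J m hI hJ h1 h2 => sqM_inf lcg hI hJ h1 h2,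
    fun I J m m' a b ha hb => fund_scale ha hb, ?_, fund_exists⟩
  · intro I m h
    refine ⟨fund_ne_bot h, fund_ne_zero h, mem_sq h.sq, ?_⟩
    intro p hp hm
    exact h.loc p (sqM_odd lcg (fund_ne_bot h) h.sq p hp hm)
  · intro I J m m' a b ha hb h1 h2 hm
    have hA : Fund (Ideal.span {a} * I) (a ^ 2 * m) := by
      refine fund_scale (I := I) (m := m) (a := a) (b := 1) ha one_ne_zero ?_ ?_ h1
      · rw [Ideal.span_singleton_one, Ideal.top_mul]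
      · ring
    have hC : Fund (Ideal.span {b} * J) (a ^ 2 * m) := by
      refine fund_scale (I := J) (m := m') (a := b) (b := 1) hb one_ne_zero ?_ ?_ h2
      · rw [Ideal.span_singleton_one, Ideal.top_mul]
      · rw [hm]; ring
    exact le_antisymm (fund_le lcg hA (fund_ne_bot hC) hC.sq)
      (fund_le lcg hC (fund_ne_bot hA) hA.sq)

end Pool.Agent.LeoD.H29
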