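import Mathlib
import Pool.Agent.Helper29_LeoD.Fnb

/-!
# TW3: passage from `k(√-m)` to `k(√(3m))` (squad LEOD, fields part)
-/

set_option autoImplicit false
set_option linter.unusedSectionVars false

open NumberField IsDedekindDomain
open Pool.Agent.LeoD

open scoped Classical

namespace Pool.Agent.LeoD.H29

variable {k : Type} [Field k] [NumberField k]

/-- The primes of `E` above 3. -/
noncomputable def Es (E : Set (HeightOneSpectrum (𝓞 k))) : Finset (HeightOneSpectrum (𝓞 k)) :=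
  (((Ideal.finite_factors (I := Ideal.span {(3 : 𝓞 k)}) (by
      rw [Ne, Submodule.zero_eq_bot, Ideal.span_singleton_eq_bot]; norm_num)).subset
    (fun p (hp : p ∈ {p : HeightOneSpectrum (𝓞 k) | (3 : 𝓞 k) ∈ p.asIdeal ∧ p ∈ E}) => by
      show p.asIdeal ∣ Ideal.span {(3 : 𝓞 k)}
      rw [Ideal.dvd_span_singleton]
      exact hp.1))).toFinset

theorem mem_Es (E : Set (HeightOneSpectrum (𝓞 k))) (p : HeightOneSpectrum (𝓞 k)) :
    p ∈ Es E ↔ (3 : 𝓞 k) ∈ p.asIdeal ∧ p ∈ E := by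
  unfold Es
  rw [Set.Finite.mem_toFinset]
  rfl

/-- The product of the primes of `E` above 3. -/
noncomputable def Qs (E : Set (HeightOneSpectrum (𝓞 k))) : Ideal (𝓞 k) :=
  ∏ p ∈ Es E, p.asIdeal

theorem Qs_ne_bot (E : Set (HeightOneSpectrum (𝓞 k))) : Qs E ≠ ⊥ := by
  unfold Qs
  rw [← Submodule.zero_eq_bot, Finset.prod_ne_zero_iff]
  intro p _
  exact p.ne_bot

theorem Qs_le (E : Set (HeightOneSpectrum (𝓞 k))) (p : HeightOneSpectrum (𝓞 k))
    (h : Qs E ≤ p.asIdeal) : (3 : 𝓞 k) ∈ p.asIdeal ∧ p ∈ E := by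
  unfold Qs at h
  obtain ⟨l, hl, hle⟩ := (Ideal.IsPrime.prod_le p.isPrime).mp h
  have h1 := (l.isMaximal).eq_of_le p.isPrime.ne_top hle
  have h2 : l = p := HeightOneSpectrum.ext h1
  subst h2
  exact (mem_Es E l).mp hl

theorem Qs_mem (E : Set (HeightOneSpectrum (𝓞 k))) (m : 𝓞 k)
    (h : ∀ p ∈ Es E, m ∈ p.asIdeal) : m ∈ Qs E := by
  unfold Qs
  rw [← Ideal.dvd_span_singleton]
  refine Finset.prod_dvd_of_coprime ?_ ?_
  · intro p _ l _ hpl
    refine (Ideal.isCoprime_iff_sup_eq).mpr (sup_eq_top_of _ _ ?_)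
    intro r h1 h2
    have h3 := (p.isMaximal).eq_of_le r.isPrime.ne_top h1
    have h4 := (l.isMaximal).eq_of_le r.isPrime.ne_top h2
    exact hpl (HeightOneSpectrum.ext (h3.trans h4.symm))
  · intro p hp
    rw [Ideal.dvd_span_singleton]
    exact h p hp

/-- The largest ideal whose square divides `R`. -/
theorem exists_sqrt (R : Ideal (𝓞 k)) (hR : R ≠ ⊥) : ∃ T : Ideal (𝓞 k), T ≠ ⊥ ∧ T ^ 2 ∣ R ∧
    ∀ p : HeightOneSpectrum (𝓞 k), ¬ (T * p.asIdeal) ^ 2 ∣ R := by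
  set S : Set ℕ := {n | ∃ I : Ideal (𝓞 k), I ^ 2 ∣ R ∧ Ideal.absNorm I = n} with hS
  have hne : S.Nonempty := ⟨_, 1, by simp, rfl⟩
  have hbd : BddAbove S := by
    refine ⟨Ideal.absNorm R, ?_⟩
    rintro n ⟨I, hI, rfl⟩
    have h1 : I ∣ R := dvd_trans (dvd_pow_self I (by norm_num)) hI
    refine Nat.le_of_dvd (Nat.pos_of_ne_zero ?_) (map_dvd Ideal.absNorm h1)
    rw [Ne, Ideal.absNorm_eq_zero_iff]
    exact hR
  obtain ⟨I, hI, hIn⟩ := Nat.sSup_mem hne hbd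
  have hI0 : I ≠ ⊥ := by
    rintro rfl
    have h2 : (⊥ : Ideal (𝓞 k)) ^ 2 = ⊥ := zero_pow two_ne_zero
    rw [h2] at hI
    exact hR (zero_dvd_iff.mp hI)
  refine ⟨I, hI0, hI, ?_⟩
  intro p hp
  have h5 : Ideal.absNorm (I * p.asIdeal) ≤ sSup S := le_csSup hbd ⟨_, hp, rfl⟩
  rw [← hIn, map_mul] at h5
  have h7 : 0 < Ideal.absNorm I := by
    refine Nat.pos_of_ne_zero ?_
    rw [Ne, Ideal.absNorm_eq_zero_iff]
    exact hI0
  have h8 : Ideal.absNorm p.asIdeal ≠ 0 := by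
    rw [Ne, Ideal.absNorm_eq_zero_iff]
    exact p.ne_bot
  have h9 : Ideal.absNorm p.asIdeal ≠ 1 := by
    rw [Ne, Ideal.absNorm_eq_one_iff]
    exact p.isPrime.ne_top
  have h10 : 2 ≤ Ideal.absNorm p.asIdeal := by omega
  nlinarith

theorem tw3 (lcg : LcgStmt) : Tw3Stmt := by
  intro k _ _ E
  have h30 : Ideal.span {(3 : 𝓞 k)} ≠ ⊥ := by
    rw [Ne, Ideal.span_singleton_eq_bot]; norm_num
  have hR0 : Ideal.span {(3 : 𝓞 k)} * Qs E ≠ ⊥ := mul_ne_zero h30 (Qs_ne_bot E)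
  obtain ⟨T, hT0, hT, hTmax⟩ := exists_sqrt _ hR0
  refine ⟨T, hT0, ?_⟩
  intro I m hI3 hF hE
  have hI0 := fund_ne_bot hF
  have hm0 := fund_ne_zero hF
  have hmI := mem_sq hF.sq
  -- primes dividing `T` are above 3
  have hT3 : ∀ p : HeightOneSpectrum (𝓞 k), T ≤ p.asIdeal → (3 : 𝓞 k) ∈ p.asIdeal := by
    intro p hp
    have h1 : Ideal.span {(3 : 𝓞 k)} * Qs E ≤ p.asIdeal :=
      le_trans (Ideal.le_of_dvd hT) (le_trans (Ideal.pow_le_self (by norm_num)) hp)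
    rcases (p.isPrime.mul_le).mp h1 with h2 | h2
    · exact (Ideal.span_singleton_le_iff_mem _).mp h2
    · exact (Qs_le E p h2).1
  have h2of3 : ∀ p : HeightOneSpectrum (𝓞 k), (3 : 𝓞 k) ∈ p.asIdeal → (2 : 𝓞 k) ∉ p.asIdeal := by
    intro p h3 h2
    refine p.isPrime.ne_top ((Ideal.eq_top_iff_one _).mpr ?_)
    have h4 : (1 : 𝓞 k) = 3 - 2 := by norm_num
    rw [h4]
    exact Ideal.sub_mem _ h3 h2
  -- `3 m ∈ (I T)²`
  have hmQ : m ∈ Qs E := Qs_mem E m (fun p hp => by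
    have h1 := (mem_Es E p).mp hp
    exact (hE p h1.1).mpr h1.2)
  have h3T : 3 * m ∈ T ^ 2 := Ideal.le_of_dvd hT
    (Ideal.mul_mem_mul (Ideal.mem_span_singleton_self _) hmQ)
  have h3I : 3 * m ∈ I ^ 2 := Ideal.mul_mem_left _ _ hmI
  have hcop : IsCoprime I T := (Ideal.isCoprime_iff_sup_eq).mpr (sup_eq_top_of _ _ (by
    intro p h1 h2
    exact hI3 p (hT3 p h2) h1))
  have h3IT : 3 * m ∈ (I * T) ^ 2 := by
    have h1 : IsCoprime (I ^ 2) (T ^ 2) := hcop.pow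
    rw [mul_pow, ← Ideal.dvd_span_singleton]
    exact h1.mul_dvd ((Ideal.dvd_span_singleton).mpr h3I) ((Ideal.dvd_span_singleton).mpr h3T)
  -- the primes above 3 divide `m` at most once
  have hp2 : ∀ p : HeightOneSpectrum (𝓞 k), (3 : 𝓞 k) ∈ p.asIdeal → m ∉ p.asIdeal ^ 2 := by
    intro p hp hm2
    refine hF.loc p (sqM_odd lcg hI0 hF.sq p (h2of3 p hp) ?_)
    have h1 : IsCoprime I p.asIdeal := (Ideal.isCoprime_iff_sup_eq).mpr (sup_eq_top_of _ _ (by
      intro r h1 h2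
      have h3 := (p.isMaximal).eq_of_le r.isPrime.ne_top h2
      have h4 : p = r := HeightOneSpectrum.ext h3
      subst h4
      exact hI3 p hp h1))
    have h2 : IsCoprime (I ^ 2) (p.asIdeal ^ 2) := h1.pow
    rw [mul_pow, ← Ideal.dvd_span_singleton]
    exact h2.mul_dvd ((Ideal.dvd_span_singleton).mpr hmI) ((Ideal.dvd_span_singleton).mpr hm2)
  obtain ⟨M', hM'⟩ := (Ideal.dvd_span_singleton).mpr hmQ
  have hM'p : ∀ p : HeightOneSpectrum (𝓞 k), (3 : 𝓞 k) ∈ p.asIdeal → ¬ M' ≤ p.asIdeal := by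
    intro p hp hle
    by_cases hpE : p ∈ E
    · refine hp2 p hp ?_
      rw [← Ideal.dvd_span_singleton, hM', pow_two]
      refine mul_dvd_mul ?_ (Ideal.dvd_iff_le.mpr hle)
      exact Finset.dvd_prod_of_mem _ ((mem_Es E p).mpr ⟨hp, hpE⟩)
    · refine hpE ((hE p hp).mp ?_)
      rw [← Ideal.span_singleton_le_iff_mem, hM']
      exact le_trans Ideal.mul_le_right hle
  refine (fund_iff _ _).mpr ⟨?_, ?_⟩
  · -- the condition for `I T`
    refine lcg k (I * T) _ (mul_ne_zero hI0 hT0) ?_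
    intro p
    by_cases hp : (3 : 𝓞 k) ∈ p.asIdeal
    · refine ⟨2, h2of3 p hp, 0, Ideal.zero_mem _, ?_⟩
      have h1 : (0 : 𝓞 k) ^ 2 + 2 ^ 2 * (-(3 * m)) = 4 * (-(3 * m)) := by ring
      rw [h1]
      exact Ideal.mul_mem_mul (Ideal.mem_span_singleton_self _) (Ideal.neg_mem_iff _ |>.mpr h3IT)
    · have hTp : ¬ T ≤ p.asIdeal := fun h => hp (hT3 p h)
      obtain ⟨t, ht, htp⟩ := SetLike.not_le_iff_exists.mp hTp
      obtain ⟨q, hq, hq2⟩ := hF.sq
      refine ⟨t, htp, t * q, ?_, ?_⟩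
      · rw [mul_comm]
        exact Ideal.mul_mem_mul ht hq
      · have h1 : (t * q) ^ 2 + t ^ 2 * (-(3 * m)) = t ^ 2 * (q ^ 2 + m) - t ^ 2 * (4 * m) := by
          ring
        rw [h1]
        have h2 : Ideal.span {(4 : 𝓞 k)} * (I * T) ^ 2
            = T ^ 2 * (Ideal.span {(4 : 𝓞 k)} * I ^ 2) := by ring
        rw [h2]
        refine Ideal.sub_mem _ ?_ ?_
        · exact Ideal.mul_mem_mul (Ideal.pow_mem_pow ht 2) hq2
        · exact Ideal.mul_mem_mul (Ideal.pow_mem_pow ht 2)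
            (Ideal.mul_mem_mul (Ideal.mem_span_singleton_self _) hmI)
  · intro p hs
    have hs2 : 3 * m ∈ (I * T * p.asIdeal) ^ 2 := by
      have h1 := mem_sq hs
      exact (Ideal.neg_mem_iff _).mp h1
    by_cases hp : (3 : 𝓞 k) ∈ p.asIdeal
    · -- contradiction with the choice of `T`
      have h1 : (T * p.asIdeal) ^ 2 ∣ (Ideal.span {(3 : 𝓞 k)} * Qs E) * M' := by
        have h2 : (Ideal.span {(3 : 𝓞 k)} * Qs E) * M' = Ideal.span {3 * m} := by
          rw [mul_assoc, ← hM', Ideal.span_singleton_mul_span_singleton]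
        rw [h2, Ideal.dvd_span_singleton]
        refine Ideal.pow_right_mono ?_ 2 hs2
        rw [mul_assoc]
        exact Ideal.mul_le_right
      have h3 : IsCoprime ((T * p.asIdeal) ^ 2) M' := by
        refine IsCoprime.pow_left ((Ideal.isCoprime_iff_sup_eq).mpr (sup_eq_top_of _ _ ?_))
        intro r h4 h5
        rcases (r.isPrime.mul_le).mp h4 with h6 | h6
        · exact hM'p r (hT3 r h6) h5
        · exact hM'p r (h6 hp) h5
      exact hTmax p (h3.dvd_of_dvd_mul_right h1)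
    · refine hF.loc p (lcg k (I * p.asIdeal) m (mul_ne_zero hI0 p.ne_bot) ?_)
      intro l
      by_cases hl : l = p
      · subst hl
        obtain ⟨x, hx, hx2⟩ := hs
        have hle : I * T * l.asIdeal ≤ I * l.asIdeal := by
          rw [mul_assoc]
          exact Ideal.mul_mono_right Ideal.mul_le_right
        refine ⟨3, hp, 3 * x, Ideal.mul_mem_left _ _ (hle hx), ?_⟩
        have h1 : (3 * x) ^ 2 + 3 ^ 2 * m = 9 * (x ^ 2 + -(3 * m)) + 4 * (3 * (3 * m)) := by ring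
        rw [h1]
        have h2 : Ideal.span {(4 : 𝓞 k)} * (I * T * l.asIdeal) ^ 2
            ≤ Ideal.span {(4 : 𝓞 k)} * (I * l.asIdeal) ^ 2 :=
          Ideal.mul_mono_right (Ideal.pow_right_mono hle 2)
        refine Ideal.add_mem _ (Ideal.mul_mem_left _ _ (h2 hx2)) ?_
        exact Ideal.mul_mem_mul (Ideal.mem_span_singleton_self _)
          (Ideal.mul_mem_left _ _ (Ideal.pow_right_mono hle 2 hs2))
      · exact sqM_away hF.sq p l hl

end Pool.Agent.LeoD.H29
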