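import Mathlib
import Pool.Agent.LeoD.TowStmts
import Pool.Agent.Helper67_LeoG.Twg

/-!
# Squad LEOD, module TWT: `WT` goes up along Galois extensions of 3-power degree

Port of Helper67_LeoG/Twg.lean with local torsion.
-/

set_option autoImplicit false

open NumberField IsDedekindDomain WithZero Module
open Pool.Agent.Helper85_Leo Pool.Agent.Leo3 Pool.Agent.LeoK Pool.Agent.LeoK.H79
open Pool.Agent.LeoG.H67 (odd_fix mu_down descend')

namespace Pool.Agent.LeoD.H29

/-! ### `LocTor` -/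

section tor

variable {L : Type} [Field L]

theorem locTor_map {z : L} (hz : LocTor z) (σ : L ≃+* L) : LocTor (σ z) := by
  intro φ
  obtain ⟨y, η, hy, hη, hj, h3⟩ := hz (φ.comp (σ : L →+* L))
  exact ⟨y, η, H83.inLoc_comp σ hy, H83.inLoc_comp σ hη, hj, h3⟩

theorem locTor_mul {z w : L} (hz : LocTor z) (hw : LocTor w) : LocTor (z * w) := by
  intro φ
  obtain ⟨s, η, hs, hη, ⟨i, hi⟩, hs3⟩ := hz φ
  obtain ⟨t, ξ, ht, hξ, ⟨j, hj⟩, ht3⟩ := hw φ
  refine ⟨s * t, η * ξ, H83.inLoc_mul hs ht, H83.inLoc_mul hη hξ, ⟨i + j, ?_⟩, ?_⟩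
  · rw [mul_pow, pow_add, pow_mul η, hi, one_pow, one_mul, mul_comm, pow_mul ξ, hj, one_pow]
  · rw [map_mul, hs3, ht3]
    ring

theorem locTor_inv {z : L} (hz : LocTor z) : LocTor z⁻¹ := by
  intro φ
  obtain ⟨s, η, hs, hη, ⟨i, hi⟩, hs3⟩ := hz φ
  refine ⟨s⁻¹, η⁻¹, H83.inLoc_inv hs, H83.inLoc_inv hη, ⟨i, ?_⟩, ?_⟩
  · rw [inv_pow, hi, inv_one]
  · rw [map_inv₀, hs3, mul_inv, inv_pow]

theorem locTor_cube (x : L) : LocTor (x ^ 3) := by
  intro φ
  refine ⟨φ x, 1, H83.inLoc_self φ x, fun ρ _ => map_one ρ, ⟨0, one_pow _⟩, ?_⟩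
  rw [map_pow, one_mul]

end tor

/-- without cube roots of unity there is no torsion of 3-power order. -/
theorem tor_one {L : Type} [Field L] (φ : L →+* Om)
    (h : ∀ t : Om, InLoc φ t → t ^ 3 = 1 → t = 1) (η : Om) (hη : InLoc φ η) (j : ℕ)
    (hj : η ^ 3 ^ j = 1) : η = 1 := by
  induction j with
  | zero => rwa [pow_zero, pow_one] at hj
  | succ j ih =>
    apply ih
    apply h
    · intro ρ hρ
      rw [map_pow, hη ρ hρ]
    · rw [← pow_mul, ← pow_succ]
      exact hj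

/-! ### The local part -/

section loc

variable {k K M L : Type} [Field k] [Field K] [Field M] [Field L] [Algebra k K] [Algebra k M]
  [Algebra k L] [Algebra K L] [Algebra M L] [IsScalarTower k K L] [IsScalarTower k M L]

/-- going down with local torsion. -/
theorem tor_desc (twl : TwlStmt) [FiniteDimensional K L] [FiniteDimensional M L] [IsGalois K L]
    [IsGalois M L] {j : ℕ} (hKL : finrank K L = 3 ^ j) (hML : finrank M L = 2)
    (hcyc : LocCyc k M) (ψ : L →+* Om) (z : K) (hz : z ≠ 0) (y η : Om) (hy : InLoc ψ y)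
    (hη : InLoc ψ η) (i : ℕ) (hi : η ^ 3 ^ i = 1) (hzy : ψ (algebraMap K L z) = η * y ^ 3) :
    ∃ y' η' : Om, InLoc (ψ.comp (algebraMap K L)) y' ∧ InLoc (ψ.comp (algebraMap K L)) η' ∧
      (∃ i : ℕ, η' ^ 3 ^ i = 1) ∧ (ψ.comp (algebraMap K L)) z = η' * y' ^ 3 := by
  have hψz : ψ (algebraMap K L z) ≠ 0 := by
    intro h
    apply hz
    apply (algebraMap K L).injective
    apply ψ.injective
    rw [h, map_zero, map_zero]
  have hy0 : y ≠ 0 := by
    rintro rfl
    apply hψz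
    rw [hzy]
    norm_num
  by_cases hex : ∃ u : Om, InLoc (ψ.comp (algebraMap K L)) u ∧ u ^ 3 = 1 ∧ u ≠ 1
  · obtain ⟨u, hu, hu3, hu1⟩ := hex
    obtain ⟨n₀, hn₀⟩ := hcyc
    obtain ⟨θ, hθ⟩ : ∃ θ : Om, θ ^ 3 = η := IsAlgClosed.exists_pow_nat_eq η (by norm_num)
    obtain ⟨n, hn⟩ : ∃ n : ℕ, n = n₀ + (i + 1) := ⟨_, rfl⟩
    have hroot : ∀ (a : ℕ) (ζ : Om), a ≤ n → ζ ^ 3 ^ a = 1 → ζ ^ 3 ^ n = 1 := by
      intro a ζ ha h
      obtain ⟨b, rfl⟩ := Nat.exists_eq_add_of_le ha
      rw [pow_add, pow_mul, h, one_pow]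
    have hθn : θ ^ 3 ^ n = 1 := by
      apply hroot (i + 1) θ (by omega)
      rw [pow_succ', pow_mul, hθ, hi]
    have hη0 : η ≠ 0 := by
      rintro rfl
      apply hψz
      rw [hzy, zero_mul]
    have hθ0 : θ ≠ 0 := by
      rintro rfl
      apply hη0
      rw [← hθ]
      norm_num
    have hw3 : (θ * y) ^ 3 = ψ (algebraMap K L z) := by
      rw [mul_pow, hθ, hzy]
    obtain ⟨y', η', hy', hη', hi', h⟩ := twl K (ψ.comp (algebraMap K L)) n (θ * y) u hu hu3 hu1
      (mul_ne_zero hθ0 hy0)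
      (by
        rw [hw3]
        exact H83.inLoc_self (ψ.comp (algebraMap K L)) z)
      (by
        intro ρ hρ hζ
        have hρM : FixF (ψ.comp (algebraMap M L)) ρ := by
          apply hn₀
          · intro x
            show ρ (ψ (algebraMap M L (algebraMap k M x))) =
              ψ (algebraMap M L (algebraMap k M x))
            rw [← IsScalarTower.algebraMap_apply k M L, IsScalarTower.algebraMap_apply k K L]
            exact hρ (algebraMap k K x)
          · intro ζ h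
            exact hζ ζ (hroot n₀ ζ (by omega) h)
        obtain ⟨g, hg⟩ := H11.exists_aut ψ ρ hρ
        have hgM : ∀ x : M, g (algebraMap M L x) = algebraMap M L x := by
          intro x
          apply ψ.injective
          rw [← hg]
          exact hρM x
        have hρL : FixF ψ ρ := by
          intro x
          rw [hg]
          congr 1
          exact fix_both (K := K) (M := M) j hKL hML (g : L ≃+* L) (fun y => g.commutes y) hgM x
        rw [map_mul, hζ θ hθn, hy ρ hρL])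
    refine ⟨y', η', hy', hη', hi', ?_⟩
    rw [← h, hw3]
    rfl
  · push Not at hex
    have hL : ∀ t : Om, InLoc ψ t → t ^ 3 = 1 → t = 1 := by
      intro t ht ht3
      exact hex t (mu_down hKL ψ t ht ht3) ht3
    have hη1 : η = 1 := tor_one ψ hL η hη i hi
    rw [hη1, one_mul] at hzy
    refine ⟨y, 1, ?_, fun ρ _ => map_one ρ, ⟨0, one_pow _⟩, ?_⟩
    · intro ρ hρ
      have h1 : InLoc ψ (ρ y / y) := by
        intro σ hσ
        rw [map_div₀, H11.inLoc_map ψ ρ hρ y hy σ hσ, hy σ hσ]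
      have h4 : (ρ y / y) ^ 3 = 1 := by
        have h5 : ρ (y ^ 3) = y ^ 3 := by
          rw [← hzy]
          exact hρ z
        rw [div_pow, ← map_pow, h5]
        exact div_self (pow_ne_zero 3 hy0)
      have h5 := hL _ h1 h4
      rwa [div_eq_one_iff_eq hy0] at h5
    · rw [one_mul, ← hzy]
      rfl

end loc

/-- cube roots of unity of an extension of degree `3 ^ j` lie below. -/
theorem mu_below {K L : Type} [Field K] [Field L] [Algebra K L] [FiniteDimensional K L]
    [IsGalois K L] {j : ℕ} (hKL : finrank K L = 3 ^ j) (x : L) (hx : x ^ 3 = 1) :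
    ∃ x₀ : K, algebraMap K L x₀ = x := by
  have hfix : ∀ σ : L ≃ₐ[K] L, σ x = x := by
    intro σ
    by_cases hx1 : x = 1
    · rw [hx1, map_one]
    have hs : 1 + x + x ^ 2 = 0 := by
      have : (x - 1) * (1 + x + x ^ 2) = 0 := by
        linear_combination hx
      exact (mul_eq_zero.1 this).resolve_left (sub_ne_zero.2 hx1)
    have hu3 : (σ x) ^ 3 = 1 := by rw [← map_pow, hx, map_one]
    have hu1 : σ x ≠ 1 := by
      intro h
      exact hx1 (σ.injective (by rw [h, map_one]))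
    have hu : (σ x - x) * (σ x - x ^ 2) = 0 := by
      have : (σ x - 1) * ((σ x - x) * (σ x - x ^ 2)) = 0 := by
        linear_combination hu3 - hx - ((σ x) ^ 2 - (σ x) * x) * hs
      exact (mul_eq_zero.1 this).resolve_left (sub_ne_zero.2 hu1)
    rcases mul_eq_zero.1 hu with h | h
    · exact sub_eq_zero.1 h
    · exfalso
      have h2 : σ x = x ^ 2 := sub_eq_zero.1 h
      have hpow : ∀ n : ℕ, (σ ^ n) x = x ^ 2 ^ n := by
        intro n
        induction n with
        | zero => simp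
        | succ n ih =>
          rw [pow_succ, AlgEquiv.mul_apply, h2, map_pow, ih, ← pow_mul, ← pow_succ]
      have hc : Nat.card (L ≃ₐ[K] L) = 3 ^ j := by rw [IsGalois.card_aut_eq_finrank, hKL]
      have h3 : σ ^ (3 ^ j) = 1 := by
        rw [← hc]
        exact pow_card_eq_one'
      have h4 := hpow (3 ^ j)
      rw [h3, AlgEquiv.one_apply] at h4
      -- `x = x ^ (2 ^ (3 ^ j))` and `2 ^ (3 ^ j) = 2` modulo 3
      obtain ⟨m, hm⟩ : Odd (3 ^ j) := Odd.pow (by decide)
      have h5 : 2 ^ (3 ^ j) = 3 * (2 ^ (3 ^ j) / 3) + 2 := by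
        have h6 : 2 ^ (3 ^ j) % 3 = 2 := by
          rw [hm, pow_succ, pow_mul, Nat.mul_mod, Nat.pow_mod]
          norm_num
        omega
      rw [h5, pow_add, pow_mul, hx, one_pow, one_mul] at h4
      apply hx1
      have hx0 : x ≠ 0 := by
        rintro rfl
        norm_num at hx
      have h7 : x * (x - 1) = 0 := by linear_combination -h4
      exact sub_eq_zero.1 ((mul_eq_zero.1 h7).resolve_left hx0)
  exact IntermediateField.mem_bot.mp ((IsGalois.mem_bot_iff_fixed (F := K) (E := L) _).mpr hfix)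

/-- TWT. -/
theorem twt (twl : TwlStmt) (wmu : WmuStmt) : TwtStmt := by
  intro k K M L _ _ _ _ _ _ _ _ _ _ _ _ _ _ _ _ j h2 h3 hML hcyc hT hW
  have fkK : FiniteDimensional k K := Module.Finite.of_restrictScalars_finite ℚ k K
  have fkM : FiniteDimensional k M := Module.Finite.of_restrictScalars_finite ℚ k M
  have fkL : FiniteDimensional k L := Module.Finite.of_restrictScalars_finite ℚ k L
  have fKL : FiniteDimensional K L := Module.Finite.of_restrictScalars_finite ℚ K L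
  have fML : FiniteDimensional M L := Module.Finite.of_restrictScalars_finite ℚ M L
  have rkL : finrank k L = 3 ^ j * 2 := by
    rw [← finrank_mul_finrank k M L, h3, hML]
  have rKL : finrank K L = 3 ^ j := by
    have h := finrank_mul_finrank k K L
    rw [rkL, h2, mul_comm] at h
    exact Nat.eq_of_mul_eq_mul_right (by norm_num) h
  have gkL : IsGalois k L := comp_galois (K := K) (M := M) j h2 h3 rkL
  have gKL : IsGalois K L := IsGalois.tower_top_of_isGalois k K L
  have gML : IsGalois M L := IsGalois.tower_top_of_isGalois k M L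
  have gkK : IsGalois k K := quad_galois h2
  obtain ⟨τ, hτ⟩ := quad_exists hML
  have hττ : ∀ x : L, τ (τ x) = x := by
    intro x
    have h := congrArg (fun f : L ≃ₐ[M] L => f x) (quad_sq hML τ)
    rw [pow_two] at h
    exact h
  -- restriction of `τ` to `K`
  let τ₀ : K ≃ₐ[k] K := (τ.restrictScalars k).restrictNormal K
  have hτ₀ : ∀ x : K, algebraMap K L (τ₀ x) = τ (algebraMap K L x) := by
    intro x
    exact AlgEquiv.restrictNormal_commutes (τ.restrictScalars k) K x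
  have hτM : ∀ x : M, τ (algebraMap M L x) = algebraMap M L x := fun x => τ.commutes x
  have hτ₀1 : τ₀ ≠ 1 := by
    intro h
    apply hτ
    apply AlgEquiv.ext
    intro x
    refine fix_both (K := K) (M := M) j rKL hML (τ : L ≃+* L) ?_ hτM x
    intro y
    have h1 := hτ₀ y
    rw [h] at h1
    exact h1.symm
  have hτ₀τ₀ : ∀ x : K, τ₀ (τ₀ x) = x := by
    intro x
    apply (algebraMap K L).injective
    rw [hτ₀, hτ₀, hττ]
  -- cube roots of unity in `L`
  have hmu : ∀ x : L, x ^ 3 = 1 → x * τ x = 1 → x = 1 := by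
    intro x hx3 hxτ
    obtain ⟨x₀, rfl⟩ := mu_below rKL x hx3
    have h5 : x₀ = 1 := by
      apply wmu k K τ₀ h2 hτ₀1 hW x₀
      · apply (algebraMap K L).injective
        rw [map_pow, hx3, map_one]
      · apply (algebraMap K L).injective
        rw [map_mul, hτ₀, hxτ, map_one]
    rw [h5, map_one]
  -- commutation
  have hcomm : ∀ (σ : L ≃ₐ[K] L) (x : L), τ (σ x) = σ (τ x) := by
    intro σ x
    let σ₀ : M ≃ₐ[k] M := (σ.restrictScalars k).restrictNormal M
    have hσ₀ : ∀ x : M, algebraMap M L (σ₀ x) = σ (algebraMap M L x) := by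
      intro x
      exact AlgEquiv.restrictNormal_commutes (σ.restrictScalars k) M x
    let g : L ≃+* L := (((σ : L ≃+* L).trans (τ : L ≃+* L)).trans (σ.symm : L ≃+* L)).trans
      (τ.symm : L ≃+* L)
    have hg : ∀ y : L, g y = τ.symm (σ.symm (τ (σ y))) := fun y => rfl
    have h1 : g x = x := by
      refine fix_both (K := K) (M := M) j rKL hML g ?_ ?_ x
      · intro y
        rw [hg, σ.commutes, ← hτ₀, AlgEquiv.commutes, hτ₀, AlgEquiv.symm_apply_apply]
      · intro y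
        rw [hg, ← hσ₀, hτM, hσ₀, AlgEquiv.symm_apply_apply, AlgEquiv.commutes]
    rw [hg, AlgEquiv.symm_apply_eq, AlgEquiv.symm_apply_eq] at h1
    exact h1
  -- the group of elements
  let A : L → Prop := fun z => (∃ c : L, τ c = c ∧ z * τ z = c ^ 3) ∧ ValCube3 z ∧ LocTor z
  have hAmul : ∀ x y, A x → A y → A (x * y) := by
    rintro x y ⟨⟨c, hc, hc3⟩, hv, hl⟩ ⟨⟨d, hd, hd3⟩, hv', hl'⟩
    refine ⟨⟨c * d, by rw [map_mul, hc, hd], ?_⟩, valCube3_mul hv hv', locTor_mul hl hl'⟩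
    rw [map_mul, mul_pow, ← hc3, ← hd3]
    ring
  have hAinv : ∀ x, A x → A x⁻¹ := by
    rintro x ⟨⟨c, hc, hc3⟩, hv, hl⟩
    refine ⟨⟨c⁻¹, by rw [map_inv₀, hc], ?_⟩, valCube3_inv hv, locTor_inv hl⟩
    rw [map_inv₀, inv_pow, ← hc3, mul_inv]
  have hAcub : ∀ x, x ≠ 0 → A (x ^ 3) := by
    intro x _
    refine ⟨⟨x * τ x, by rw [map_mul, hττ, mul_comm], by rw [map_pow, mul_pow]⟩,
      valCube3_cube x, locTor_cube x⟩
  have hAσ : ∀ (σ : L ≃ₐ[K] L) (x : L), A x → A (σ x) := by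
    rintro σ x ⟨⟨c, hc, hc3⟩, hv, hl⟩
    refine ⟨⟨σ c, by rw [hcomm, hc], by rw [hcomm, ← map_mul, hc3, map_pow]⟩,
      valCube3_map hv (σ : L ≃+* L), locTor_map hl (σ : L ≃+* L)⟩
  have hAτ : ∀ x : L, A x → A (τ x) := by
    rintro x ⟨⟨c, hc, hc3⟩, hv, hl⟩
    refine ⟨⟨c, hc, ?_⟩, valCube3_map hv (τ : L ≃+* L), locTor_map hl (τ : L ≃+* L)⟩
    rw [hττ, mul_comm, hc3]
  have hG : IsPGroup 3 (L ≃ₐ[K] L) := IsPGroup.of_card (n := j)
    (by rw [IsGalois.card_aut_eq_finrank, rKL])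
  intro z hz0 hzN hzv hzl
  by_contra hnc
  push Not at hnc
  have hzA : A z := by
    obtain ⟨c, hc⟩ := hzN
    refine ⟨⟨algebraMap M L c, hτM c, ?_⟩, hzv, hzl⟩
    rw [← quad_norm hML τ hτ z, hc, map_pow]
  obtain ⟨e₁, he₁0, he₁A, he₁c, he₁f⟩ :=
    exists_class hG A hAmul hAinv hAcub hAσ z hz0 hzA hnc
  have hτe₁ : τ e₁ ≠ 0 := (map_ne_zero τ).2 he₁0
  -- `e = e₁ / τ e₁`
  obtain ⟨e, he⟩ : ∃ e : L, e = e₁ * (τ e₁)⁻¹ := ⟨_, rfl⟩
  have he0 : e ≠ 0 := by
    rw [he]
    exact mul_ne_zero he₁0 (inv_ne_zero hτe₁)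
  have heτ : e * τ e = 1 := by
    rw [he, map_mul, map_inv₀, hττ]
    field_simp
  have heA : A e := by
    rw [he]
    exact hAmul _ _ he₁A (hAinv _ (hAτ _ he₁A))
  have hec : ∀ t : L, t ^ 3 ≠ e := by
    intro t ht
    obtain ⟨⟨c, -, hc⟩, -, -⟩ := he₁A
    -- `e = e₁² / c³`
    have h5 : e₁ ^ 2 = t ^ 3 * c ^ 3 := by
      rw [ht, he, ← hc]
      field_simp
    have ht0 : t ≠ 0 := by
      rintro rfl
      apply he0
      rw [← ht]
      norm_num
    have hc0 : c ≠ 0 := by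
      rintro rfl
      apply mul_ne_zero he₁0 hτe₁
      rw [hc]
      norm_num
    apply he₁c (e₁ / (t * c))
    rw [div_pow, mul_pow, ← h5]
    field_simp
  have hef : ∀ σ : L ≃ₐ[K] L, ∃ c : L, c ≠ 0 ∧ σ e = e * c ^ 3 := by
    intro σ
    obtain ⟨c, hc0, hc⟩ := he₁f σ
    have hτc : τ c ≠ 0 := (map_ne_zero τ).2 hc0
    refine ⟨c * (τ c)⁻¹, mul_ne_zero hc0 (inv_ne_zero hτc), ?_⟩
    rw [he, map_mul, map_inv₀, ← hcomm, hc, map_mul, map_pow]
    field_simp
  obtain ⟨z₀, y, hz₀, hy, hzy, hyσ⟩ := descend' (K := K) (τ : L ≃+* L) hττ hcomm hmu e heτ hef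
  have hyσ' : ∀ σ : L ≃ₐ[K] L, σ (y * τ y) = y * τ y := hyσ
  have hA₀ : A (algebraMap K L z₀) := by
    rw [hzy]
    exact hAmul _ _ heA (hAcub y hy)
  obtain ⟨-, hv₀, hl₀⟩ := hA₀
  -- the norm of `z₀`
  have hN' : ∃ d : k, z₀ * τ₀ z₀ = (algebraMap k K d) ^ 3 := by
    obtain ⟨dK, hdK⟩ := IntermediateField.mem_bot.mp
      ((IsGalois.mem_bot_iff_fixed (F := K) (E := L) _).mpr hyσ')
    have hfix : τ₀ dK = dK := by
      apply (algebraMap K L).injective
      rw [hτ₀, hdK, map_mul, hττ, mul_comm]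
    obtain ⟨d, hd⟩ := quad_fixed h2 τ₀ hτ₀1 dK hfix
    refine ⟨d, ?_⟩
    apply (algebraMap K L).injective
    rw [hd, map_mul, hτ₀, map_pow, hdK, hzy, map_mul, map_pow]
    calc e * y ^ 3 * (τ e * τ y ^ 3) = (e * τ e) * (y * τ y) ^ 3 := by ring
      _ = (y * τ y) ^ 3 := by rw [heτ, one_mul]
  obtain ⟨d, hd⟩ := hN'
  have hN : ∃ d : k, Algebra.norm k z₀ = d ^ 3 := by
    refine ⟨d, ?_⟩
    apply (algebraMap k K).injective
    rw [quad_norm h2 τ₀ hτ₀1, hd, map_pow]
  -- local condition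
  have hloc : LocTor z₀ := by
    intro φ
    obtain ⟨ψ, hψ⟩ := H83.exists_ext K L φ
    obtain ⟨y', η, hy', hη, ⟨i, hi⟩, h⟩ := hl₀ ψ
    rw [← hψ]
    exact tor_desc (k := k) (M := M) twl rKL hML hcyc ψ z₀ hz₀ y' η hy' hη i hi h
  -- valuations
  have hval : ValCube3 z₀ := by
    intro q hq
    obtain ⟨w, hw, hw3⟩ := exists_above (L := L) q hq
    have hp := val_pow q w hw z₀
    obtain ⟨x, hx⟩ := hv₀ w hw3
    rw [hx] at hp
    by_cases h3e : 3 ∣ w.asIdeal.ramificationIdx (𝓞 K)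
    · have hwp := w.isPrime
      have hPp : (w.asIdeal.under (𝓞 M)).IsPrime := inferInstance
      have hP0 : w.asIdeal.under (𝓞 M) ≠ ⊥ := by
        intro h
        exact w.ne_bot (Ideal.eq_bot_of_comap_eq_bot h)
      have hP3 : (3 : 𝓞 M) ∉ w.asIdeal.under (𝓞 M) := by
        rw [Ideal.mem_under, map_ofNat]
        exact hw3
      have hnu := ram_or (k := k) (K := K) hML w h3e hPp
      obtain ⟨q', hq', hv'⟩ := H60.valuation_conj (τ₀ : K ≃+* K) q
      have hqp := q.isPrime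
      have hqp' := q'.isPrime
      have hu1 : q.asIdeal.under (𝓞 k) = (w.asIdeal.under (𝓞 M)).under (𝓞 k) := by
        rw [hw.over, Ideal.under_under, Ideal.under_under]
      have hu2 : q'.asIdeal.under (𝓞 k) = (w.asIdeal.under (𝓞 M)).under (𝓞 k) := by
        rw [← hu1, hq']
        ext a
        rw [Ideal.mem_under, Ideal.mem_under, Ideal.mem_comap]
        have h5 : (RingOfIntegers.mapRingEquiv (τ₀ : K ≃+* K)) (algebraMap (𝓞 k) (𝓞 K) a) =
            algebraMap (𝓞 k) (𝓞 K) a := by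
          apply RingOfIntegers.ext
          exact τ₀.commutes (a : k)
        rw [h5]
      have hqq : q.asIdeal = q'.asIdeal := hT _ hP0 hP3 hnu q.asIdeal q'.asIdeal hu1 hu2
      have hqq' : q' = q := HeightOneSpectrum.ext hqq.symm
      have h6 : q.valuation K (τ₀ z₀) = q.valuation K z₀ := by
        have := hv' z₀
        rw [hqq'] at this
        exact this
      have h7 : q.valuation K z₀ ^ 2 = (q.valuation K (algebraMap k K d)) ^ 3 := by
        have h9 := congrArg (q.valuation K) hd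
        rw [map_pow, map_mul, h6, ← pow_two] at h9
        exact h9
      exact cube_of_pow (by norm_num) h7
    · exact cube_of_pow h3e hp
  obtain ⟨t, ht⟩ := hW z₀ hz₀ hN hval hloc
  apply hec (algebraMap K L t / y)
  rw [div_pow, ← map_pow, ht, hzy]
  field_simp

end Pool.Agent.LeoD.H29
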